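import Pool.Agent.Run7.h156.FPX.Main

/-!
# The maximum number of edges of fan-planar multigraphs without homotopic parallel edges

For every `n ≥ 3` we determine the maximum number `M(n)` of edges of a simple fan-planar drawing of
a loopless multigraph with `n` vertices in which parallel edges are pairwise non-homotopic:
`M(3) = 3`, `M(4) = 8`, and `M(n) = 5n - 10` for all `n ≥ 5`.

The upper bound `5n - 10` is the earlier theorem `MP_7b591c_co.UpperBound`. New are the tight
drawings for every `n ≥ 5` (pentagons filled with their five diagonals, at most two of them with an
additional vertex in the centre that is joined to the five corners, glued along uncrossed edges),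
and the sharp upper bounds for `n = 3` and `n = 4`.
-/

set_option autoImplicit false

namespace Pool.Agent.Results.MP_7b591c_co.ExactMaximum

open Pool.Agent.Q238.FP Run7.h156.FPX

/-- **The exact maximum.** For `n ≥ 3`, the largest number of edges of a loopless multigraph with
`n` vertices that has a simple fan-planar drawing in which parallel edges are pairwise
non-homotopic is `3` for `n = 3`, `8` for `n = 4`, and `5n - 10` for `n ≥ 5`. -/
theorem result (n : ℕ) (hn : 3 ≤ n) :
    IsGreatest {k : ℕ | ∃ (V E F : Type) (_ : Fintype V) (_ : Fintype E) (_ : Finite F)
        (G : Drawing V E F), Fintype.card V = n ∧ Fintype.card E = k ∧ G.Loopless ∧ G.Simple ∧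
          G.FanPlanar ∧ G.NonHomotopic}
      (if n = 3 then 3 else if n = 4 then 8 else 5 * n - 10) := by
  constructor
  · split_ifs with h3 h4
    · subst h3
      exact tight3.drawing (by omega)
    · subst h4
      exact tight4.drawing (by omega)
    · exact (tight n (by omega)).drawing (by omega)
  · rintro k ⟨V, E, F, _, _, _, G, hV, hE, hl, hs, hf, hh⟩
    split_ifs with h3 h4
    · rw [← hE]
      exact upper3 G hl hh (by rw [hV, h3])
    · rw [← hE]
      exact upper4 G hl hs hh (by rw [hV, h4])
    · have := G.card_edges_le hl hs hf hh (by rw [hV]; exact hn)
      omega

end Pool.Agent.Results.MP_7b591c_co.ExactMaximum
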